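import Mathlib

/-!
# Coloring number of infinite graphs: basic notions (helper461)

`col G` is the coloring number.  `FreeOver G k T B` says that the vertices of `B` can be ordered in a
well-founded way such that every vertex of `B` has at most `k` neighbours in `T` or earlier in `B`.
-/

open Cardinal Set

universe u

namespace Pool.Agent.helper461_col

/-- The coloring number of a graph: the least cardinal `κ` such that some well-order of the vertex set
has fewer than `κ` smaller neighbours at every vertex. -/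
noncomputable def col {V : Type u} (G : SimpleGraph V) : Cardinal.{u} :=
  sInf {κ : Cardinal.{u} | ∃ r : V → V → Prop, IsWellOrder V r ∧
    ∀ x, #{y // G.Adj x y ∧ r y x} < κ}

variable {V : Type u}

lemma wf_false : WellFounded (fun _ _ : V => False) := ⟨fun _ => Acc.intro _ (fun _ h => h.elim)⟩

/-- `r` witnesses that `B` is `k`-free over `T`. -/
def Witness (G : SimpleGraph V) (k : ℕ) (T B : Set V) (r : V → V → Prop) : Prop :=
  WellFounded r ∧ (∀ x ∈ B, ∀ y ∈ B, G.Adj x y → r x y ∨ r y x) ∧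
    ∀ x ∈ B, {y | G.Adj x y ∧ (y ∈ T ∨ (y ∈ B ∧ r y x))}.encard ≤ k

/-- `B` is `k`-free over `T`. -/
def FreeOver (G : SimpleGraph V) (k : ℕ) (T B : Set V) : Prop :=
  ∃ r, Witness G k T B r

lemma Witness.asymm {G : SimpleGraph V} {k : ℕ} {T B : Set V} {r : V → V → Prop}
    (h : Witness G k T B r) {x y : V} (hxy : r x y) : ¬ r y x :=
  h.1.asymmetric _ _ hxy

/-- Dependence only on the adjacencies between `B` and `T ∪ B`. -/
lemma FreeOver.congr {G H : SimpleGraph V} {k : ℕ} {T B : Set V}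
    (h : FreeOver G k T B) (hGH : ∀ x ∈ B, ∀ y ∈ T ∪ B, H.Adj x y → G.Adj x y) :
    FreeOver H k T B := by
  obtain ⟨r, hr, ht, hc⟩ := h
  refine ⟨r, hr, fun x hx y hy hxy => ht x hx y hy (hGH x hx y (Or.inr hy) hxy), fun x hx => ?_⟩
  refine le_trans (encard_le_encard ?_) (hc x hx)
  rintro y ⟨hxy, hy⟩
  refine ⟨hGH x hx y ?_ hxy, hy⟩
  rcases hy with hy | hy
  · exact Or.inl hy
  · exact Or.inr hy.1

lemma FreeOver.anti {G H : SimpleGraph V} {k : ℕ} {T B : Set V}
    (h : FreeOver G k T B) (hHG : H ≤ G) : FreeOver H k T B :=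
  h.congr fun _ _ _ _ hxy => hHG hxy

lemma FreeOver.subset {G : SimpleGraph V} {k : ℕ} {T B T' B' : Set V}
    (h : FreeOver G k T B) (hT : T' ⊆ T) (hB : B' ⊆ B) : FreeOver G k T' B' := by
  obtain ⟨r, hr, ht, hc⟩ := h
  refine ⟨r, hr, fun x hx y hy hxy => ht x (hB hx) y (hB hy) hxy, fun x hx => ?_⟩
  refine le_trans (encard_le_encard ?_) (hc x (hB hx))
  rintro y ⟨hxy, hy⟩
  refine ⟨hxy, ?_⟩
  rcases hy with hy | hy
  · exact Or.inl (hT hy)
  · exact Or.inr ⟨hB hy.1, hy.2⟩

lemma FreeOver.mono {G : SimpleGraph V} {k l : ℕ} {T B : Set V}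
    (h : FreeOver G k T B) (hkl : k ≤ l) : FreeOver G l T B := by
  obtain ⟨r, hr, ht, hc⟩ := h
  exact ⟨r, hr, ht, fun x hx => (hc x hx).trans (by exact_mod_cast hkl)⟩

/-- Over a set closed under smaller neighbours, the rest stays free. -/
lemma Witness.diff {G : SimpleGraph V} {k : ℕ} {T B S : Set V} {r : V → V → Prop}
    (h : Witness G k T B r) (hS : S ⊆ B)
    (hcl : ∀ x ∈ S, ∀ y ∈ B, G.Adj x y → r y x → y ∈ S) :
    Witness G k (T ∪ S) (B \ S) r := by
  obtain ⟨hr, ht, hc⟩ := h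
  refine ⟨hr, fun x hx y hy hxy => ht x hx.1 y hy.1 hxy, fun x hx => ?_⟩
  refine le_trans (encard_le_encard ?_) (hc x hx.1)
  rintro y ⟨hxy, hy⟩
  refine ⟨hxy, ?_⟩
  rcases hy with (hy | hy) | hy
  · exact Or.inl hy
  · right
    refine ⟨hS hy, ?_⟩
    rcases ht x hx.1 y (hS hy) hxy with h1 | h1
    · exact absurd (hcl y hy x hx.1 hxy.symm h1) hx.2
    · exact h1
  · exact Or.inr ⟨hy.1.1, hy.2⟩

/-- Concatenation along a well-ordered sequence of stages. -/
lemma freeOver_of_stages {ι : Type*} [LinearOrder ι] [WellFoundedLT ι] {G : SimpleGraph V} {k : ℕ}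
    {T B : Set V} (a : V → ι)
    (h : ∀ i, FreeOver G k (T ∪ {x | x ∈ B ∧ a x < i}) {x | x ∈ B ∧ a x = i}) :
    FreeOver G k T B := by
  choose r hr using h
  let s : V → V → Prop := fun x y => a x < a y ∨ (a x = a y ∧ r (a y) x y)
  have hs : WellFounded s := by
    have key : ∀ i : ι, ∀ x : V, a x = i → Acc s x := by
      intro i
      induction i using WellFoundedLT.induction with
      | _ i ih =>
        intro x
        induction x using (hr i).1.induction with
        | _ x ihx =>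
          intro hx
          refine Acc.intro x fun y hy => ?_
          rcases hy with hy | ⟨hy1, hy2⟩
          · exact ih (a y) (hx ▸ hy) y rfl
          · rw [hx] at hy2
            exact ihx y hy2 (hy1.trans hx)
    exact ⟨fun x => key (a x) x rfl⟩
  refine ⟨s, hs, ?_, ?_⟩
  · intro x hx y hy hxy
    rcases lt_trichotomy (a x) (a y) with h1 | h1 | h1
    · exact Or.inl (Or.inl h1)
    · rcases (hr (a y)).2.1 x ⟨hx, h1⟩ y ⟨hy, rfl⟩ hxy with h2 | h2
      · exact Or.inl (Or.inr ⟨h1, h2⟩)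
      · exact Or.inr (Or.inr ⟨h1.symm, h1.symm ▸ h2⟩)
    · exact Or.inr (Or.inl h1)
  · intro x hx
    refine le_trans (encard_le_encard ?_) ((hr (a x)).2.2 x ⟨hx, rfl⟩)
    rintro y ⟨hxy, hy⟩
    refine ⟨hxy, ?_⟩
    rcases hy with hy | ⟨hy, hy1 | ⟨hy1, hy2⟩⟩
    · exact Or.inl (Or.inl hy)
    · exact Or.inl (Or.inr ⟨hy, hy1⟩)
    · exact Or.inr ⟨⟨hy, hy1⟩, hy2⟩

/-- Two step concatenation. -/
lemma freeOver_of_two {G : SimpleGraph V} {k : ℕ} {T B S : Set V} (hS : S ⊆ B)
    (h1 : FreeOver G k T S) (h2 : FreeOver G k (T ∪ S) (B \ S)) : FreeOver G k T B := by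
  classical
  refine freeOver_of_stages (fun x => if x ∈ S then (0 : ℕ) else if x ∈ B then 1 else 2)
    fun i => ?_
  rcases i with _ | _ | i
  · refine h1.subset ?_ ?_
    · rintro x (hx | ⟨_, hx⟩)
      · exact hx
      · exact absurd hx (by simp)
    · rintro x ⟨hx, hx2⟩
      by_contra hxS
      simp [hxS, hx] at hx2
  · refine h2.subset ?_ ?_
    · rintro x (hx | ⟨hxB, hx⟩)
      · exact Or.inl hx
      · by_cases hxS : x ∈ S
        · exact Or.inr hxS
        · simp [hxS, hxB] at hx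
    · rintro x ⟨hx, hx2⟩
      refine ⟨hx, fun hxS => ?_⟩
      simp [hxS] at hx2
  · refine ⟨fun _ _ => False, wf_false, ?_, ?_⟩
    · rintro x ⟨hx, hx2⟩
      exfalso
      by_cases hxS : x ∈ S <;> simp [hxS, hx] at hx2
    · rintro x ⟨hx, hx2⟩
      exfalso
      by_cases hxS : x ∈ S <;> simp [hxS, hx] at hx2

lemma freeOver_empty (G : SimpleGraph V) (k : ℕ) (T : Set V) : FreeOver G k T ∅ :=
  ⟨fun _ _ => False, wf_false, by simp, by simp⟩

/-- Some subgraph is `(k+1)`-free but not `k`-free, over `T`, on `B`. -/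
def Exact (G : SimpleGraph V) (k : ℕ) (T B : Set V) : Prop :=
  ∃ H ≤ G, FreeOver H (k + 1) T B ∧ ¬ FreeOver H k T B

/-- Exactness passes to larger vertex sets. -/
lemma Exact.superset {G : SimpleGraph V} {k : ℕ} {T B B' : Set V} (hTB : Disjoint T B)
    (hB : B' ⊆ B) (h : Exact G k T B') : Exact G k T B := by
  obtain ⟨H', hH', h1, h2⟩ := h
  let H : SimpleGraph V :=
    { Adj := fun x y => H'.Adj x y ∧ x ∈ T ∪ B' ∧ y ∈ T ∪ B'
      symm := ⟨fun x y h => ⟨h.1.symm, h.2.2, h.2.1⟩⟩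
      loopless := ⟨fun x h => H'.loopless.irrefl x h.1⟩ }
  refine ⟨H, fun x y h => hH' h.1, ?_, ?_⟩
  · refine freeOver_of_two hB ?_ ?_
    · exact h1.congr fun x _ y _ h => h.1
    · refine ⟨fun _ _ => False, wf_false, ?_, ?_⟩
      · intro x hx y hy hxy
        rcases hxy.2.1 with h3 | h3
        · exact absurd hx.1 (Set.disjoint_left.1 hTB h3)
        · exact absurd h3 hx.2
      · intro x hx
        have : {y | H.Adj x y ∧ (y ∈ T ∪ B' ∨ (y ∈ B \ B' ∧ False))} = ∅ := by
          ext y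
          simp only [mem_ofPred_eq, mem_empty_iff_false, iff_false]
          rintro ⟨hxy, _⟩
          rcases hxy.2.1 with h3 | h3
          · exact absurd hx.1 (Set.disjoint_left.1 hTB h3)
          · exact absurd h3 hx.2
        rw [this]
        simp
  · intro h3
    apply h2
    refine (h3.subset (le_refl T) hB).congr ?_
    intro x hx y hy hxy
    exact ⟨hxy, Or.inr hx, hy⟩

/-- The graph glued from a family of graphs along a stage function. -/
def glue {ι : Type*} [LinearOrder ι] (T B : Set V) (a : V → ι) (Hs : ι → SimpleGraph V) :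
    SimpleGraph V where
  Adj x y := (x ∈ B ∧ (Hs (a x)).Adj x y ∧ (y ∈ T ∨ (y ∈ B ∧ a y ≤ a x))) ∨
    (y ∈ B ∧ (Hs (a y)).Adj x y ∧ (x ∈ T ∨ (x ∈ B ∧ a x ≤ a y)))
  symm := ⟨by
    rintro x y (h | h)
    · exact Or.inr ⟨h.1, h.2.1.symm, h.2.2⟩
    · exact Or.inl ⟨h.1, h.2.1.symm, h.2.2⟩⟩
  loopless := ⟨by
    rintro x (h | h)
    · exact (Hs (a x)).loopless.irrefl x h.2.1
    · exact (Hs (a x)).loopless.irrefl x h.2.1⟩

lemma glue_le {ι : Type*} [LinearOrder ι] {T B : Set V} {a : V → ι} {Hs : ι → SimpleGraph V}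
    {G : SimpleGraph V} (h : ∀ i, Hs i ≤ G) : glue T B a Hs ≤ G := by
  rintro x y (h1 | h1)
  · exact h _ h1.2.1
  · exact h _ h1.2.1

lemma glue_adj {ι : Type*} [LinearOrder ι] {T B : Set V} (hTB : Disjoint T B) {a : V → ι}
    {Hs : ι → SimpleGraph V} {x y : V} (hx : x ∈ B) (hy : y ∈ T ∨ (y ∈ B ∧ a y ≤ a x)) :
    (glue T B a Hs).Adj x y ↔ (Hs (a x)).Adj x y := by
  constructor
  · rintro (h | h)
    · exact h.2.1
    · rcases hy with hy | hy
      · exact absurd h.1 (Set.disjoint_left.1 hTB hy)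
      · rcases h.2.2 with h3 | h3
        · exact absurd hx (Set.disjoint_left.1 hTB h3)
        · have : a x = a y := le_antisymm h3.2 hy.2
          rw [this]
          exact h.2.1
  · intro h
    exact Or.inl ⟨hx, h, hy⟩

lemma glue_freeOver_iff {ι : Type*} [LinearOrder ι] {T B : Set V} (hTB : Disjoint T B) {a : V → ι}
    {Hs : ι → SimpleGraph V} {m : ℕ} (i : ι) :
    FreeOver (glue T B a Hs) m (T ∪ {x | x ∈ B ∧ a x < i}) {x | x ∈ B ∧ a x = i} ↔
    FreeOver (Hs i) m (T ∪ {x | x ∈ B ∧ a x < i}) {x | x ∈ B ∧ a x = i} := by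
  have key : ∀ x ∈ {x | x ∈ B ∧ a x = i}, ∀ y ∈ (T ∪ {x | x ∈ B ∧ a x < i}) ∪ {x | x ∈ B ∧ a x = i},
      ((glue T B a Hs).Adj x y ↔ (Hs i).Adj x y) := by
    rintro x ⟨hx, rfl⟩ y hy
    refine glue_adj hTB hx ?_
    rcases hy with (hy | hy) | hy
    · exact Or.inl hy
    · exact Or.inr ⟨hy.1, hy.2.le⟩
    · exact Or.inr ⟨hy.1, hy.2.le⟩
  constructor
  · intro h
    exact h.congr fun x hx y hy hxy => (key x hx y hy).2 hxy
  · intro h
    exact h.congr fun x hx y hy hxy => (key x hx y hy).1 hxy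

lemma glue_freeOver {ι : Type*} [LinearOrder ι] [WellFoundedLT ι] {T B : Set V}
    (hTB : Disjoint T B) {a : V → ι} {Hs : ι → SimpleGraph V} {m : ℕ}
    (h : ∀ i, FreeOver (Hs i) m (T ∪ {x | x ∈ B ∧ a x < i}) {x | x ∈ B ∧ a x = i}) :
    FreeOver (glue T B a Hs) m T B :=
  freeOver_of_stages a fun i => (glue_freeOver_iff hTB i).2 (h i)

/-- If some vertex of `B` has more than `k` neighbours in `T`, then there is an exact subgraph. -/
lemma exact_of_vertex {G : SimpleGraph V} {k : ℕ} {T B : Set V} (hTB : Disjoint T B) {w : V}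
    (hw : w ∈ B) (hnf : ¬ FreeOver G k T {w}) : Exact G k T B := by
  refine Exact.superset hTB (Set.singleton_subset_iff.2 hw) ?_
  have hwT : w ∉ T := fun h1 => Set.disjoint_left.1 hTB h1 hw
  have h1 : ((k + 1 : ℕ) : ℕ∞) ≤ {y | G.Adj w y ∧ y ∈ T}.encard := by
    by_contra h2
    rw [not_le] at h2
    apply hnf
    refine ⟨fun _ _ => False, wf_false, ?_, ?_⟩
    · intro x hx y hy hxy
      rw [mem_singleton_iff] at hx hy
      subst hx; subst hy
      exact absurd hxy (G.loopless.irrefl _)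
    · intro x hx
      rw [mem_singleton_iff] at hx
      subst hx
      have : {y | G.Adj x y ∧ (y ∈ T ∨ (y ∈ ({x} : Set V) ∧ False))} = {y | G.Adj x y ∧ y ∈ T} := by
        ext y; simp
      rw [this]
      exact Order.le_of_lt_add_one (by exact_mod_cast h2)
  obtain ⟨P, hP, hPc⟩ := exists_subset_encard_eq h1
  let H : SimpleGraph V :=
    { Adj := fun x y => (x = w ∧ y ∈ P) ∨ (y = w ∧ x ∈ P)
      symm := ⟨fun x y h => h.symm⟩
      loopless := ⟨by
        rintro x (⟨h1, h2⟩ | ⟨h1, h2⟩) <;> exact hwT (h1 ▸ (hP h2).2)⟩ }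
  have hset : ∀ r : V → V → Prop,
      {y | H.Adj w y ∧ (y ∈ T ∨ (y ∈ ({w} : Set V) ∧ r y w))} = P := by
    intro r
    ext y
    constructor
    · rintro ⟨(⟨_, h⟩ | ⟨h1, h2⟩), _⟩
      · exact h
      · exact absurd (hP h2).2 hwT
    · intro hy
      exact ⟨Or.inl ⟨rfl, hy⟩, Or.inl (hP hy).2⟩
  refine ⟨H, ?_, ?_, ?_⟩
  · rintro x y (⟨h1, h2⟩ | ⟨h1, h2⟩)
    · rw [h1]; exact (hP h2).1
    · rw [h1]; exact (hP h2).1.symm
  · refine ⟨fun _ _ => False, wf_false, ?_, ?_⟩
    · intro x hx y hy hxy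
      rw [mem_singleton_iff] at hx hy
      subst hx; subst hy
      exact absurd hxy (H.loopless.irrefl _)
    · intro x hx
      rw [mem_singleton_iff] at hx
      subst hx
      exact (congrArg encard (hset fun _ _ => False)).trans hPc |>.le
  · rintro ⟨r, hr, _, hc⟩
    have := hc w rfl
    rw [hset r, hPc] at this
    exact absurd this (by
      rw [not_le]
      exact_mod_cast Nat.lt_succ_self k)

/-- If one vertex can be removed so that the rest is `k`-free, and single vertices are `k`-free over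
`T`, then the whole is `(k+1)`-free. -/
lemma freeOver_insert {G : SimpleGraph V} {k : ℕ} {T B : Set V} {w : V}
    (h1 : FreeOver G k T {w}) (h2 : FreeOver G k T (B \ {w})) : FreeOver G (k + 1) T B := by
  by_cases hw : w ∈ B
  · refine freeOver_of_two (Set.singleton_subset_iff.2 hw) (h1.mono (Nat.le_succ k)) ?_
    obtain ⟨r, hr, ht, hc⟩ := h2
    refine ⟨r, hr, ht, fun x hx => ?_⟩
    have hsub : {y | G.Adj x y ∧ (y ∈ T ∪ {w} ∨ (y ∈ B \ {w} ∧ r y x))} ⊆
        {y | G.Adj x y ∧ (y ∈ T ∨ (y ∈ B \ {w} ∧ r y x))} ∪ {w} := by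
      rintro y ⟨hxy, (hy | hy) | hy⟩
      · exact Or.inl ⟨hxy, Or.inl hy⟩
      · exact Or.inr hy
      · exact Or.inl ⟨hxy, Or.inr hy⟩
    refine (encard_le_encard hsub).trans ((encard_union_le _ _).trans ?_)
    rw [encard_singleton]
    push_cast
    gcongr
    exact hc x hx
  · rw [Set.sdiff_singleton_eq_self hw] at h2
    exact h2.mono (Nat.le_succ k)

end Pool.Agent.helper461_col
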