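import Pool.Agent.helper461_col.Basic

/-!
# Closure points for witnesses of freeness along a filtration of regular uncountable length (helper461)
-/

open Cardinal Set

universe u

namespace Pool.Agent.helper461_col

variable {V : Type u}

lemma bounded_of_card_lt {κ : Cardinal.{u}} (hκ : κ.IsRegular) {S : Set κ.ord.ToType}
    (hS : #S < κ) : ∃ i, ∀ s ∈ S, s < i := by
  by_contra hcon
  push Not at hcon
  have hcof : IsCofinal S := fun i => by
    obtain ⟨s, hs, his⟩ := hcon i
    exact ⟨s, hs, his⟩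
  have h1 := Order.cof_le hcof
  rw [Ordinal.cof_toType, hκ.cof_ord] at h1
  exact absurd hS (not_lt.2 h1)

/-- The reflexive transitive closure of a point has size less than `κ`. -/
lemma closure_small {κ : Cardinal.{u}} (hκ : κ.IsRegular) (hκ0 : ℵ₀ < κ) {R : V → V → Prop}
    (hR : ∀ x, #{y | R x y} < κ) (x : V) : #{y | Relation.ReflTransGen R x y} < κ := by
  let Z : ℕ → Set V := fun n => Nat.rec {x} (fun _ S => ⋃ z ∈ S, {y | R z y}) n
  have hZ : ∀ n, #↥(Z n) < κ := by
    intro n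
    induction n with
    | zero =>
      change #({x} : Set V) < κ
      rw [mk_singleton]
      exact one_lt_aleph0.trans hκ0
    | succ n ih =>
      change #(⋃ z ∈ Z n, {y | R z y} : Set V) < κ
      rw [card_biUnion_lt_iff_forall_of_isRegular hκ ih]
      intro a _
      exact hR a
  have hU : #(⋃ n : ULift.{u} ℕ, Z n.down : Set V) < κ := by
    rw [card_iUnion_lt_iff_forall_of_isRegular hκ (by simpa using hκ0)]
    intro i
    exact hZ i.down
  refine lt_of_le_of_lt (mk_le_mk_of_subset ?_) hU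
  intro y hy
  have : ∃ n, y ∈ Z n := by
    induction hy with
    | refl => exact ⟨0, rfl⟩
    | tail _ h2 ih =>
      obtain ⟨n, hn⟩ := ih
      refine ⟨n + 1, ?_⟩
      change _ ∈ ⋃ z ∈ Z n, {y | R z y}
      simp only [mem_iUnion]
      exact ⟨_, hn, h2⟩
  obtain ⟨n, hn⟩ := this
  exact mem_iUnion.2 ⟨⟨n⟩, hn⟩

/-- `c` is a closure point: the vertices of `B` of stage less than `c` are closed under smaller
neighbours. -/
def ClosPt {ι : Type*} [LinearOrder ι] (G : SimpleGraph V) (B : Set V) (a : V → ι)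
    (r : V → V → Prop) (c : ι) : Prop :=
  ∀ x ∈ B, a x < c → ∀ y ∈ B, G.Adj x y → r y x → a y < c

/-- Closure points are unbounded. -/
lemma exists_closPt {κ : Cardinal.{u}} (hκ : κ.IsRegular) (hκ0 : ℵ₀ < κ) {G : SimpleGraph V}
    {k : ℕ} {T B : Set V} {r : V → V → Prop} (hr : Witness G k T B r) (a : V → κ.ord.ToType)
    (hsmall : ∀ i, #{x | x ∈ B ∧ a x ≤ i} < κ) {x₀ : V} (hx₀ : x₀ ∈ B) :
    ∃ c, a x₀ < c ∧ ClosPt G B a r c := by
  let R : V → V → Prop := fun x y => x ∈ B ∧ y ∈ B ∧ ((G.Adj x y ∧ r y x) ∨ a y ≤ a x)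
  have hR : ∀ x, #{y | R x y} < κ := by
    intro x
    by_cases hx : x ∈ B
    · have hsub : {y | R x y} ⊆ {y | G.Adj x y ∧ (y ∈ T ∨ (y ∈ B ∧ r y x))} ∪
          {y | y ∈ B ∧ a y ≤ a x} := by
        rintro y ⟨_, hy, h | h⟩
        · exact Or.inl ⟨h.1, Or.inr ⟨hy, h.2⟩⟩
        · exact Or.inr ⟨hy, h⟩
      refine lt_of_le_of_lt (mk_le_mk_of_subset hsub) (lt_of_le_of_lt (mk_union_le _ _) ?_)
      refine add_lt_of_lt hκ.aleph0_le ?_ (hsmall _)
      refine lt_trans ?_ hκ0
      rw [lt_aleph0_iff_set_finite]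
      exact encard_lt_top_iff.1 (lt_of_le_of_lt (hr.2.2 x hx) (ENat.natCast_lt_top k))
    · have : {y | R x y} = ∅ := by
        ext y
        simp only [mem_ofPred_eq, mem_empty_iff_false, iff_false]
        intro h
        exact hx h.1
      rw [this]
      simp only [mk_eq_zero]
      exact hκ.pos
  have hZ := closure_small hκ hκ0 hR x₀
  set Z := {y | Relation.ReflTransGen R x₀ y} with hZdef
  have hZB : Z ⊆ B := by
    intro y hy
    change Relation.ReflTransGen R x₀ y at hy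
    induction hy with
    | refl => exact hx₀
    | tail _ h2 _ => exact h2.2.1
  obtain ⟨i, hi⟩ := bounded_of_card_lt hκ (S := a '' Z) (lt_of_le_of_lt mk_image_le hZ)
  let U : Set κ.ord.ToType := {i | ∀ z ∈ Z, a z < i}
  have hU : U.Nonempty := ⟨i, fun z hz => hi _ ⟨z, hz, rfl⟩⟩
  let c := wellFounded_lt.min U hU
  have hc : ∀ z ∈ Z, a z < c := wellFounded_lt.min_mem U hU
  refine ⟨c, hc x₀ Relation.ReflTransGen.refl, ?_⟩
  intro x hx hxc y hy hxy hyx
  have hnot : a x ∉ U := fun h => wellFounded_lt.not_lt_min U h hxc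
  have : ∃ z ∈ Z, a x ≤ a z := by
    by_contra hcon
    push Not at hcon
    exact hnot hcon
  obtain ⟨z, hz, hxz⟩ := this
  have hxZ : x ∈ Z := Relation.ReflTransGen.tail hz ⟨hZB hz, hx, Or.inr hxz⟩
  exact hc y (Relation.ReflTransGen.tail hxZ ⟨hx, hy, Or.inl ⟨hxy, hyx⟩⟩)

/-- At a closure point, the rest is free over what came before. -/
lemma Witness.of_closPt {ι : Type*} [LinearOrder ι] {G : SimpleGraph V} {k : ℕ} {T B : Set V}
    {r : V → V → Prop} (hr : Witness G k T B r) {a : V → ι} {c : ι} (hc : ClosPt G B a r c) :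
    FreeOver G k (T ∪ {x | x ∈ B ∧ a x < c}) {x | x ∈ B ∧ c ≤ a x} := by
  have h := hr.diff (S := {x | x ∈ B ∧ a x < c}) (fun x hx => hx.1)
    (fun x hx y hy hxy hyx => ⟨hy, hc x hx.1 hx.2 y hy hxy hyx⟩)
  refine FreeOver.subset ⟨r, h⟩ (le_refl _) ?_
  rintro x ⟨hx, hxc⟩
  exact ⟨hx, fun h => absurd h.2 (not_lt.2 hxc)⟩

/-- The chain of sets generated by a step function. -/
noncomputable def chain {ι : Type*} [LinearOrder ι] [WellFoundedLT ι]
    (N : ι → Set V → Set V) : ι → Set V :=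
  WellFounded.fix (C := fun _ => Set V) wellFounded_lt
    (fun i ih => ⋃ (j : ι) (h : j < i), N j (ih j h))

lemma chain_eq {ι : Type*} [LinearOrder ι] [WellFoundedLT ι] (N : ι → Set V → Set V) (i : ι) :
    chain N i = ⋃ (j : ι) (_ : j < i), N j (chain N j) := by
  unfold chain
  rw [WellFounded.fix_eq]

lemma mem_chain {ι : Type*} [LinearOrder ι] [WellFoundedLT ι] {N : ι → Set V → Set V} {i : ι}
    {x : V} : x ∈ chain N i ↔ ∃ j < i, x ∈ N j (chain N j) := by
  rw [chain_eq]
  simp only [mem_iUnion, exists_prop]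

/-- A chain with its stage function. -/
lemma chain_stage {ι : Type*} [LinearOrder ι] [WellFoundedLT ι] [Nonempty ι]
    {N : ι → Set V → Set V} (hN : ∀ i, chain N i ⊆ N i (chain N i)) {B : Set V}
    (hNB : ∀ i, chain N i ⊆ B → N i (chain N i) ⊆ B)
    (hB : ∀ x ∈ B, ∃ i, x ∈ N i (chain N i)) :
    ∃ a : V → ι, (∀ i, chain N i = {x | x ∈ B ∧ a x < i}) ∧
      ∀ i, N i (chain N i) = {x | x ∈ B ∧ a x ≤ i} := by
  classical
  have hsub : ∀ i, chain N i ⊆ B := by
    intro i
    induction i using WellFoundedLT.induction with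
    | _ i ih =>
      intro x hx
      obtain ⟨j, hj, hxj⟩ := mem_chain.1 hx
      exact hNB j (ih j hj) hxj
  let a : V → ι := fun x => if h : ({i | x ∈ N i (chain N i)} : Set ι).Nonempty then
    wellFounded_lt.min _ h else Classical.arbitrary ι
  have ha1 : ∀ x ∈ B, x ∈ N (a x) (chain N (a x)) := by
    intro x hx
    have h : ({i | x ∈ N i (chain N i)} : Set ι).Nonempty := hB x hx
    simp only [a, dif_pos h]
    exact wellFounded_lt.min_mem _ h
  have ha2 : ∀ x i, x ∈ N i (chain N i) → a x ≤ i := by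
    intro x i hi
    have h : ({i | x ∈ N i (chain N i)} : Set ι).Nonempty := ⟨i, hi⟩
    simp only [a, dif_pos h]
    exact not_lt.1 (wellFounded_lt.not_lt_min {i | x ∈ N i (chain N i)} hi)
  have h1 : ∀ i, chain N i = {x | x ∈ B ∧ a x < i} := by
    intro i
    ext x
    constructor
    · intro hx
      refine ⟨hsub i hx, ?_⟩
      obtain ⟨j, hj, hxj⟩ := mem_chain.1 hx
      exact lt_of_le_of_lt (ha2 x j hxj) hj
    · rintro ⟨hx, hxi⟩
      exact mem_chain.2 ⟨a x, hxi, ha1 x hx⟩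
  refine ⟨a, h1, ?_⟩
  intro i
  ext x
  constructor
  · intro hx
    exact ⟨hNB i (hsub i) hx, ha2 x i hx⟩
  · rintro ⟨hx, hxi⟩
    rcases hxi.lt_or_eq with h | h
    · apply hN
      rw [h1]
      exact ⟨hx, h⟩
    · rw [← h]
      exact ha1 x hx

end Pool.Agent.helper461_col
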