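import Pool.Agent.helper461_col.Countable

/-!
# From freeness back to the coloring number (helper461)
-/

open Cardinal Set

universe u

namespace Pool.Agent.helper461_col

variable {V : Type u}

lemma col_set_nonempty (G : SimpleGraph V) : {κ : Cardinal.{u} | ∃ r : V → V → Prop,
    IsWellOrder V r ∧ ∀ x, #{y // G.Adj x y ∧ r y x} < κ}.Nonempty := by
  obtain ⟨s, _, hs⟩ := IsWellFounded.exists_well_order_ge (α := V) (WellOrderingRel)
  exact ⟨Order.succ #V, s, hs, fun x => lt_of_le_of_lt (mk_subtype_le _) (Order.lt_succ _)⟩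

lemma col_spec (G : SimpleGraph V) : ∃ r : V → V → Prop,
    IsWellOrder V r ∧ ∀ x, #{y // G.Adj x y ∧ r y x} < col G :=
  csInf_mem (col_set_nonempty G)

lemma mk_lt_of_encard_le {s : Set V} {k : ℕ} (h : s.encard ≤ k) :
    #s < ((k + 1 : ℕ) : Cardinal.{u}) := by
  obtain ⟨h1, h2⟩ := encard_le_coe_iff_finite_ncard_le.1 h
  rw [← cast_ncard h1]
  exact_mod_cast Nat.lt_succ_iff.2 h2

lemma encard_le_of_mk_lt {s : Set V} {k : ℕ} (h : #s < ((k + 1 : ℕ) : Cardinal.{u})) :
    s.encard ≤ k := by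
  have hf : s.Finite := by
    rw [← lt_aleph0_iff_set_finite]
    exact h.trans (natCast_lt_aleph0)
  rw [encard_le_coe_iff_finite_ncard_le]
  refine ⟨hf, ?_⟩
  rw [← cast_ncard hf] at h
  exact Nat.lt_succ_iff.1 (by exact_mod_cast h)

/-- Finite bounds on the coloring number mean freeness. -/
theorem col_le_iff (G : SimpleGraph V) (k : ℕ) :
    col G ≤ ((k + 1 : ℕ) : Cardinal.{u}) ↔ FreeOver G k ∅ univ := by
  constructor
  · intro h
    obtain ⟨r, hr, hc⟩ := col_spec G
    refine ⟨r, hr.toIsWellFounded.wf, ?_, ?_⟩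
    · intro x _ y _ hxy
      by_contra hcon
      push Not at hcon
      have h1 := hr.trichotomous x y hcon.1 hcon.2
      exact absurd hxy (by rw [h1]; exact G.loopless.irrefl _)
    · intro x _
      apply encard_le_of_mk_lt
      refine lt_of_le_of_lt ?_ ((hc x).trans_le h)
      refine mk_le_mk_of_subset (t := {y | G.Adj x y ∧ r y x}) ?_
      rintro y ⟨h1, h2 | h2⟩
      · exact h2.elim
      · exact ⟨h1, h2.2⟩
  · rintro ⟨r, hr, ht, hc⟩
    have : IsWellFounded V r := ⟨hr⟩
    obtain ⟨s, hrs, hs⟩ := IsWellFounded.exists_well_order_ge r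
    refine csInf_le' ⟨s, hs, fun x => ?_⟩
    have hsub : {y | G.Adj x y ∧ s y x} ⊆
        {y | G.Adj x y ∧ (y ∈ (∅ : Set V) ∨ (y ∈ Set.univ ∧ r y x))} := by
      rintro y ⟨h1, h2⟩
      refine ⟨h1, Or.inr ⟨mem_univ _, ?_⟩⟩
      rcases ht x (mem_univ _) y (mem_univ _) h1 with h3 | h3
      · exact absurd h2 (hs.toIsWellFounded.wf.asymmetric _ _ (hrs _ _ h3))
      · exact h3
    exact lt_of_le_of_lt (mk_le_mk_of_subset hsub) (mk_lt_of_encard_le (hc x (mem_univ _)))

lemma col_le_of_equiv {W : Type u} {G : SimpleGraph V} {H : SimpleGraph W} (e : V ≃ W)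
    (he : ∀ x y, G.Adj x y ↔ H.Adj (e x) (e y)) : col G ≤ col H := by
  obtain ⟨r, hr, hc⟩ := col_spec H
  refine csInf_le' ⟨e ⁻¹'o r, RelIso.IsWellOrder.preimage r e, fun x => ?_⟩
  refine lt_of_le_of_lt ?_ (hc (e x))
  refine le_of_eq (mk_congr (e.subtypeEquiv fun y => ?_))
  rw [he]
  rfl

lemma col_eq_of_equiv {W : Type u} {G : SimpleGraph V} {H : SimpleGraph W} (e : V ≃ W)
    (he : ∀ x y, G.Adj x y ↔ H.Adj (e x) (e y)) : col G = col H :=
  le_antisymm (col_le_of_equiv e he)
    (col_le_of_equiv e.symm fun x y => by rw [he]; simp)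

/-- A graph whose coloring number is at least the natural number `n` has a subgraph with coloring
number exactly `n`. -/
theorem exists_subgraph_col_eq (G : SimpleGraph V) (n : ℕ) (h : (n : Cardinal.{u}) ≤ col G) :
    ∃ G' : G.Subgraph, col G'.coe = n := by
  have key : ∀ H ≤ G, col H = n → ∃ G' : G.Subgraph, col G'.coe = n := by
    intro H hH hcol
    refine ⟨SimpleGraph.toSubgraph H hH, ?_⟩
    rw [← hcol]
    refine col_eq_of_equiv (Equiv.Set.univ V) ?_
    intro x y
    rfl
  rcases n with _ | _ | k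
  · refine ⟨⊥, le_antisymm ?_ zero_le⟩
    have hemp : IsEmpty (⊥ : G.Subgraph).verts := by
      constructor
      rintro ⟨x, hx⟩
      exact hx
    obtain ⟨r, hr, _⟩ := col_spec (⊥ : G.Subgraph).coe
    exact csInf_le' ⟨r, hr, fun x => hemp.elim x⟩
  · refine key ⊥ bot_le (le_antisymm ?_ ?_)
    · have := (col_le_iff (⊥ : SimpleGraph V) 0).2 (freeOver_bot _ _ _)
      exact_mod_cast this
    · have hne : Nonempty V := by
        by_contra hemp
        rw [not_nonempty_iff] at hemp
        obtain ⟨r, hr, _⟩ := col_spec G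
        have h0 : col G ≤ 0 := csInf_le' ⟨r, hr, fun x => hemp.elim x⟩
        have h1 := h.trans h0
        simp at h1
      obtain ⟨x⟩ := hne
      obtain ⟨r, _, hc⟩ := col_spec (⊥ : SimpleGraph V)
      have h1 : 0 < col (⊥ : SimpleGraph V) := lt_of_le_of_lt zero_le (hc x)
      have h2 := Cardinal.one_le_iff_pos.2 h1
      exact_mod_cast h2
  · have hnf : ¬ FreeOver G k ∅ univ := by
      rw [← col_le_iff]
      intro h1
      have h2 := h.trans h1
      have h3 : k + 1 + 1 ≤ k + 1 := by exact_mod_cast h2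
      omega
    obtain ⟨H, hH, h1, h2⟩ := exact_of_not_free G k _ ∅ univ (Set.empty_disjoint _) rfl hnf
    refine key H hH (le_antisymm ?_ ?_)
    · exact (col_le_iff H (k + 1)).2 h1
    · rw [← col_le_iff, not_le] at h2
      have h3 := Order.succ_le_of_lt h2
      rw [Cardinal.succ_natCast] at h3
      exact_mod_cast h3

end Pool.Agent.helper461_col
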