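import Pool.Agent.helper461_col.Singular

/-!
# Singular compactness for finite coloring numbers (helper461)
-/

open Cardinal Set

universe u

namespace Pool.Agent.helper461_col

variable {V : Type u}

theorem freeOver_singular {κ : Cardinal.{u}} (hκ : κ.IsSingular) {G : SimpleGraph V} {k : ℕ}
    {T B : Set V} (hB : #B = κ) (hsm : ∀ X ⊆ B, #X < κ → FreeOver G k T X) :
    FreeOver G k T B := by
  classical
  have hlim := hκ.isSuccLimit
  have hℵ : ℵ₀ < κ := lt_of_le_of_ne hκ.aleph0_le (fun h => not_isSingular_aleph0 (h ▸ hκ))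
  have e : κ.ord.ToType ≃ B := by
    have : #(κ.ord.ToType) = #B := by rw [mk_ord_toType, hB]
    exact Classical.choice (Cardinal.eq.1 this)
  obtain ⟨s, hs, hsc⟩ := Order.exists_cof_eq κ.ord.ToType
  have hscard : #s < κ := by
    rw [hsc, Ordinal.cof_toType]
    exact hκ.cof_ord_lt
  let μ : s → Cardinal.{u} := fun i => max (#(Iic (i : κ.ord.ToType))) (max #s ℵ₀)
  have hμκ : ∀ i, μ i < κ := by
    intro i
    refine max_lt ?_ (max_lt hscard hℵ)
    have h1 : Iic (i : κ.ord.ToType) = Iio (i : κ.ord.ToType) ∪ {(i : κ.ord.ToType)} := by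
      ext x; simp [le_iff_lt_or_eq]
    rw [h1]
    refine lt_of_le_of_lt (mk_union_le _ _) (add_lt_of_lt hκ.aleph0_le
      (mk_Iio_toType_ord_lt _) ?_)
    rw [mk_singleton]
    exact one_lt_aleph0.trans hℵ
  have hμmono : ∀ i j : s, i ≤ j → μ i ≤ μ j := by
    intro i j hij
    refine max_le_max (mk_le_mk_of_subset ?_) (le_refl _)
    exact Iic_subset_Iic.2 hij
  have hμℵ : ∀ i, ℵ₀ ≤ μ i := fun i => (le_max_right _ _).trans (le_max_right _ _)
  have hμs : ∀ i, #s ≤ μ i := fun i => (le_max_left _ _).trans (le_max_right _ _)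
  have hnice : ∀ (i : s) (A : Set V), A ⊆ B → #A ≤ μ i → ∃ A' ⊆ B, A ⊆ A' ∧ #A' ≤ μ i ∧
      ∀ X ⊆ B \ A', #X ≤ μ i → FreeOver G k (T ∪ A') X :=
    fun i A hA hAc => exists_nice (hμℵ i)
      (fun X hX hXc => hsm X hX (lt_of_le_of_lt hXc (hlim.succ_lt (hμκ i)))) hA hAc
  let P : (s → Set V) × (s → V → V → Prop) → Prop := fun p => ∀ i, p.1 i ⊆ B ∧
    #↥(p.1 i) ≤ μ i ∧ Witness G k T (p.1 i) (p.2 i) ∧
    ∀ X ⊆ B \ p.1 i, #X ≤ μ i → FreeOver G k (T ∪ p.1 i) X
  let Q : (s → Set V) × (s → V → V → Prop) → (s → Set V) × (s → V → V → Prop) → Prop :=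
    fun p q => (∀ i, p.1 i ⊆ q.1 i) ∧ (∀ i j, j < i → p.1 j ⊆ q.1 i) ∧
      (∀ i j, j < i → ∀ x ∈ p.1 j, x ∈ p.1 i → ∀ y ∈ p.1 i, G.Adj x y → p.2 i y x → y ∈ q.1 j) ∧
      (∀ i, ∀ x y, y ∈ p.1 i → (q.2 i x y ↔ x ∈ p.1 i ∧ p.2 i x y))
  have hstep : ∀ p, P p → ∃ q, P q ∧ Q p q := by
    intro p hp
    let U : s → Set V := fun i => (p.1 i ∪ (⋃ j ∈ ({j | j < i} : Set s), p.1 j)) ∪
      (⋃ j ∈ ({j | i < j} : Set s), ⋃ x ∈ p.1 i ∩ p.1 j,
        {y | y ∈ p.1 j ∧ G.Adj x y ∧ p.2 j y x})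
    have hUB : ∀ i, U i ⊆ B := by
      intro i x hx
      rcases hx with (hx | hx) | hx
      · exact (hp i).1 hx
      · simp only [mem_iUnion] at hx
        obtain ⟨j, _, hj⟩ := hx
        exact (hp j).1 hj
      · simp only [mem_iUnion] at hx
        obtain ⟨j, _, y, _, hj⟩ := hx
        exact (hp j).1 hj.1
    have hUc : ∀ i, #↥(U i) ≤ μ i := by
      intro i
      refine card_union_le' (hμℵ i) (card_union_le' (hμℵ i) (hp i).2.1 ?_) ?_
      · refine card_biUnion_le'' (hμℵ i) (hμs i) ?_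
        intro j hj
        exact (hp j).2.1.trans (hμmono j i (le_of_lt hj))
      · refine card_biUnion_le'' (hμℵ i) (hμs i) ?_
        intro j hj
        refine card_biUnion_le' (hμℵ i) ?_ ?_
        · exact (mk_le_mk_of_subset inter_subset_left).trans (hp i).2.1
        · intro x hx
          refine le_trans ?_ (hμℵ i)
          refine le_of_lt ?_
          rw [lt_aleph0_iff_set_finite]
          refine Set.Finite.subset (encard_lt_top_iff.1
            (lt_of_le_of_lt ((hp j).2.2.1.2.2 x hx.2) (ENat.natCast_lt_top k))) ?_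
          rintro y ⟨h1, h2, h3⟩
          exact ⟨h2, Or.inr ⟨h1, h3⟩⟩
    choose A' hA'B hA'U hA'c hA'n using fun i => hnice i (U i) (hUB i) (hUc i)
    have hpA' : ∀ i, p.1 i ⊆ A' i := fun i x hx => hA'U i (Or.inl (Or.inl hx))
    have hwit : ∀ i, ∃ t, Witness G k (T ∪ p.1 i) (A' i \ p.1 i) t := by
      intro i
      exact (hp i).2.2.2 _ (diff_subset_diff_left (hA'B i))
        ((mk_le_mk_of_subset diff_subset).trans (hA'c i))
    choose t ht using hwit
    refine ⟨(A', fun i => ext (p.1 i) (p.2 i) (t i)), ?_, ?_, ?_, ?_, ?_⟩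
    · intro i
      refine ⟨hA'B i, hA'c i, ext_witness (hp i).2.2.1 (ht i), hA'n i⟩
    · exact hpA'
    · intro i j hji x hx
      apply hA'U i
      refine Or.inl (Or.inr ?_)
      simp only [mem_iUnion]
      exact ⟨j, hji, hx⟩
    · intro i j hji x hxj hxi y hyi hxy hyx
      apply hA'U j
      refine Or.inr ?_
      simp only [mem_iUnion]
      exact ⟨i, hji, x, ⟨hxj, hxi⟩, hyi, hxy, hyx⟩
    · intro i x y hy
      exact ext_mem hy
  -- initial state
  have hinit : ∃ p, P p ∧ ∀ i : s, ∀ d : κ.ord.ToType, d ≤ i → (e d : V) ∈ p.1 i := by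
    have h0 : ∀ i : s, ∃ A' ⊆ B, ((fun d => (e d : V)) '' Iic (i : κ.ord.ToType)) ⊆ A' ∧
        #A' ≤ μ i ∧ ∀ X ⊆ B \ A', #X ≤ μ i → FreeOver G k (T ∪ A') X := by
      intro i
      refine hnice i _ ?_ (mk_image_le.trans (le_max_left _ _))
      rintro x ⟨d, _, rfl⟩
      exact (e d).2
    choose A hAB hAe hAc hAn using h0
    have h1 : ∀ i, ∃ r, Witness G k T (A i) r := fun i =>
      hsm _ (hAB i) (lt_of_le_of_lt (hAc i) (hμκ i))
    choose r hr using h1
    exact ⟨(A, r), fun i => ⟨hAB i, hAc i, hr i, hAn i⟩, fun i d hd => hAe i ⟨d, hd, rfl⟩⟩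
  obtain ⟨p₀, hp₀, hp₀e⟩ := hinit
  choose F hF1 hF2 using hstep
  let seq : ℕ → {p // P p} := fun n => Nat.rec ⟨p₀, hp₀⟩ (fun _ q => ⟨F q.1 q.2, hF1 q.1 q.2⟩) n
  have hseq : ∀ n, Q (seq n).1 (seq (n + 1)).1 := fun n => hF2 _ _
  let A : ℕ → s → Set V := fun n i => (seq n).1.1 i
  let r : ℕ → s → V → V → Prop := fun n i => (seq n).1.2 i
  have hAB : ∀ n i, A n i ⊆ B := fun n i => ((seq n).2 i).1
  have hW : ∀ n i, Witness G k T (A n i) (r n i) := fun n i => ((seq n).2 i).2.2.1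
  have hAm1 : ∀ n i, A n i ⊆ A (n + 1) i := fun n i => (hseq n).1 i
  have hAm : ∀ i m n, m ≤ n → A m i ⊆ A n i := by
    intro i m n hmn
    induction hmn with
    | refl => exact le_refl _
    | step _ ih => exact ih.trans (hAm1 _ i)
  have hAlt : ∀ n i j, j < i → A n j ⊆ A (n + 1) i := fun n i j h => (hseq n).2.1 i j h
  have hcl : ∀ n i j, j < i → ∀ x ∈ A n j, x ∈ A n i → ∀ y ∈ A n i, G.Adj x y → r n i y x →
      y ∈ A (n + 1) j := fun n i j h => (hseq n).2.2.1 i j h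
  have hr1 : ∀ n i x y, y ∈ A n i → (r (n + 1) i x y ↔ x ∈ A n i ∧ r n i x y) :=
    fun n i x y h => (hseq n).2.2.2 i x y h
  have hr2 : ∀ i m n, m < n → ∀ x y, y ∈ A m i → (r n i x y ↔ x ∈ A m i ∧ r m i x y) := by
    intro i m n hmn
    induction hmn with
    | refl => intro x y hy; exact hr1 m i x y hy
    | @step n hmn ih =>
      intro x y hy
      have hmn' : m < n := hmn
      have hy' : y ∈ A n i := hAm i m n hmn'.le hy
      rw [hr1 n i x y hy', ih x y hy]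
      constructor
      · rintro ⟨_, h⟩; exact h
      · intro h; exact ⟨hAm i m n hmn'.le h.1, h⟩
  let Aω : s → Set V := fun i => ⋃ n, A n i
  let rω : s → V → V → Prop := fun i x y => ∃ n, x ∈ A n i ∧ y ∈ A n i ∧ r n i x y
  -- the limit relation agrees with `r n` below elements of `A n`
  have hrω : ∀ i n x y, y ∈ A n i → (rω i x y ↔ x ∈ A n i ∧ r n i x y) := by
    intro i n x y hy
    constructor
    · rintro ⟨m, hx, hy', hxy⟩
      rcases lt_trichotomy m n with h | h | h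
      · exact ⟨hAm i m n h.le hx, (hr2 i m n h x y hy').2 ⟨hx, hxy⟩⟩
      · subst h; exact ⟨hx, hxy⟩
      · exact (hr2 i n m h x y hy).1 hxy
    · rintro ⟨hx, hxy⟩
      exact ⟨n, hx, hy, hxy⟩
  have hWω : ∀ i, Witness G k T (Aω i) (rω i) := by
    intro i
    refine ⟨?_, ?_, ?_⟩
    · have hacc : ∀ n y, y ∈ A n i → Acc (rω i) y := by
        intro n y
        induction y using (hW n i).1.induction with
        | _ y ih =>
          intro hy
          refine Acc.intro y fun x hx => ?_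
          rw [hrω i n x y hy] at hx
          exact ih x hx.2 hx.1
      refine ⟨fun y => Acc.intro y fun x hx => ?_⟩
      obtain ⟨n, hx', _, _⟩ := hx
      exact hacc n x hx'
    · intro x hx y hy hxy
      obtain ⟨m, hm⟩ := mem_iUnion.1 hx
      obtain ⟨n, hn⟩ := mem_iUnion.1 hy
      have h1 : x ∈ A (max m n) i := hAm i m _ (le_max_left _ _) hm
      have h2 : y ∈ A (max m n) i := hAm i n _ (le_max_right _ _) hn
      rcases (hW (max m n) i).2.1 x h1 y h2 hxy with h | h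
      · exact Or.inl ⟨_, h1, h2, h⟩
      · exact Or.inr ⟨_, h2, h1, h⟩
    · intro x hx
      obtain ⟨n, hn⟩ := mem_iUnion.1 hx
      refine le_trans (encard_le_encard ?_) ((hW n i).2.2 x hn)
      rintro y ⟨hxy, hy⟩
      refine ⟨hxy, ?_⟩
      rcases hy with hy | hy
      · exact Or.inl hy
      · exact Or.inr ((hrω i n y x hn).1 hy.2)
  have hωmono : ∀ i j, j < i → Aω j ⊆ Aω i := by
    intro i j hji x hx
    obtain ⟨n, hn⟩ := mem_iUnion.1 hx
    exact mem_iUnion.2 ⟨n + 1, hAlt n i j hji hn⟩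
  have hωcl : ∀ i j, j < i → ∀ x ∈ Aω j, ∀ y ∈ Aω i, G.Adj x y → rω i y x → y ∈ Aω j := by
    intro i j hji x hx y _ hxy hyx
    obtain ⟨m, hm⟩ := mem_iUnion.1 hx
    have hxi : x ∈ A (m + 1) i := hAlt m i j hji hm
    have hxj : x ∈ A (m + 1) j := hAm1 m j hm
    obtain ⟨h1, h2⟩ := (hrω i (m + 1) y x hxi).1 hyx
    exact mem_iUnion.2 ⟨m + 2, hcl (m + 1) i j hji x hxj hxi y h1 hxy h2⟩
  have hωB : ∀ i, Aω i ⊆ B := fun i => iUnion_subset fun n => hAB n i
  have hcov : ∀ x ∈ B, ∃ i, x ∈ Aω i := by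
    intro x hx
    obtain ⟨i, hi, hdi⟩ := hs (e.symm ⟨x, hx⟩)
    refine ⟨⟨i, hi⟩, mem_iUnion.2 ⟨0, ?_⟩⟩
    have := hp₀e ⟨i, hi⟩ (e.symm ⟨x, hx⟩) hdi
    rw [Equiv.apply_symm_apply] at this
    exact this
  -- stages
  rcases B.eq_empty_or_nonempty with rfl | ⟨x₁, hx₁⟩
  · exact freeOver_empty _ _ _
  obtain ⟨i₁, _⟩ := hcov x₁ hx₁
  let a : V → s := fun x => if h : ({i | x ∈ Aω i} : Set s).Nonempty then
    wellFounded_lt.min _ h else i₁
  have ha1 : ∀ x ∈ B, x ∈ Aω (a x) := by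
    intro x hx
    have h : ({i | x ∈ Aω i} : Set s).Nonempty := hcov x hx
    simp only [a, dif_pos h]
    exact wellFounded_lt.min_mem _ h
  have ha2 : ∀ x i, x ∈ Aω i → a x ≤ i := by
    intro x i hi
    have h : ({i | x ∈ Aω i} : Set s).Nonempty := ⟨i, hi⟩
    simp only [a, dif_pos h]
    exact not_lt.1 (wellFounded_lt.not_lt_min {i | x ∈ Aω i} hi)
  refine freeOver_of_stages a fun i => ?_
  have hPsub : {x | x ∈ B ∧ a x < i} ⊆ Aω i := by
    rintro x ⟨hx, hxi⟩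
    exact hωmono i (a x) hxi (ha1 x hx)
  have hdiff := (hWω i).diff (S := {x | x ∈ B ∧ a x < i}) hPsub (by
    rintro x ⟨hx, hxi⟩ y hy hxy hyx
    have h1 := hωcl i (a x) hxi x (ha1 x hx) y hy hxy hyx
    exact ⟨hωB _ h1, lt_of_le_of_lt (ha2 y _ h1) hxi⟩)
  refine FreeOver.subset ⟨_, hdiff⟩ (le_refl _) ?_
  rintro x ⟨hx, hxi⟩
  refine ⟨hxi ▸ ha1 x hx, fun h => ?_⟩
  exact absurd h.2 (by rw [hxi]; exact lt_irrefl _)

end Pool.Agent.helper461_col
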