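import Pool.Agent.helper461_col.Compact

/-!
# The finite and countable cases, and the main theorem (helper461)
-/

open Cardinal Set

universe u

namespace Pool.Agent.helper461_col

variable {V : Type u}

/-- A finite set which is not free contains a minimal such set. -/
lemma exists_minimal_nonfree {G : SimpleGraph V} {k : ℕ} {T W : Set V} (hW : W.Finite)
    (hnf : ¬ FreeOver G k T W) :
    ∃ W' ⊆ W, ¬ FreeOver G k T W' ∧ ∀ Y ⊆ W', Y ≠ W' → FreeOver G k T Y := by
  induction hn : W.ncard using Nat.strong_induction_on generalizing W with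
  | _ n ih =>
    by_cases h : ∀ Y ⊆ W, Y ≠ W → FreeOver G k T Y
    · exact ⟨W, le_refl _, hnf, h⟩
    · push Not at h
      obtain ⟨Y, hYW, hne, hY⟩ := h
      have hlt : Y.ncard < n := by
        rw [← hn]
        exact ncard_lt_ncard (hYW.ssubset_of_ne hne) hW
      obtain ⟨W', h1, h2, h3⟩ := ih _ hlt (hW.subset hYW) hY rfl
      exact ⟨W', h1.trans hYW, h2, h3⟩

lemma exact_minimal {G : SimpleGraph V} {k : ℕ} {T W : Set V} (hTW : Disjoint T W)
    (hnf : ¬ FreeOver G k T W) (hmin : ∀ Y ⊆ W, Y ≠ W → FreeOver G k T Y) : Exact G k T W := by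
  obtain ⟨w, hw⟩ : W.Nonempty := by
    by_contra hemp
    rw [not_nonempty_iff_eq_empty] at hemp
    rw [hemp] at hnf
    exact hnf (freeOver_empty _ _ _)
  by_cases h : FreeOver G k T {w}
  · refine ⟨G, le_refl _, freeOver_insert h (hmin _ diff_subset ?_), hnf⟩
    intro heq
    have : w ∈ W \ {w} := by rw [heq]; exact hw
    exact this.2 rfl
  · exact exact_of_vertex hTW hw h

/-- The set of vertices reachable through smaller neighbours is finite. -/
lemma finite_closure {r : V → V → Prop} (hr : WellFounded r) {R : V → V → Prop}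
    (hRr : ∀ x y, R x y → r y x) (hfin : ∀ x, {y | R x y}.Finite) (x : V) :
    {y | Relation.ReflTransGen R x y}.Finite := by
  induction x using hr.induction with
  | _ x ih =>
    have h : {y | Relation.ReflTransGen R x y} ⊆
        {x} ∪ ⋃ z ∈ {z | R x z}, {y | Relation.ReflTransGen R z y} := by
      intro y hy
      rcases Relation.ReflTransGen.cases_head hy with h | ⟨z, hz, hzy⟩
      · exact Or.inl h.symm
      · refine Or.inr ?_
        simp only [mem_iUnion]
        exact ⟨z, hz, hzy⟩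
    refine Set.Finite.subset ?_ h
    refine (finite_singleton x).union ?_
    exact (hfin x).biUnion fun z hz => ih z (hRr x z hz)

lemma exists_bad_base {G : SimpleGraph V} {k : ℕ} {T B : Set V}
    (hBc : B.Countable) (hfin : ∀ X ⊆ B, X.Finite → FreeOver G k T X)
    (hnf : ¬ FreeOver G k T B) :
    ∃ F ⊆ B, F.Finite ∧ ∀ F' ⊆ B, F'.Finite → F ⊆ F' →
      ∃ W ⊆ B \ F', W.Finite ∧ ¬ FreeOver G k (T ∪ F') W := by
  classical
  by_contra hcon
  push Not at hcon
  apply hnf
  rcases B.eq_empty_or_nonempty with rfl | hBne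
  · exact freeOver_empty _ _ _
  obtain ⟨e, he⟩ := hBc.exists_eq_range hBne
  have heB : ∀ n, e n ∈ B := fun n => by rw [he]; exact mem_range_self n
  let P : Set V → Prop := fun F => F ⊆ B ∧ F.Finite ∧
    ∀ W ⊆ B \ F, W.Finite → FreeOver G k (T ∪ F) W
  have hnice : ∀ F ⊆ B, F.Finite → ∃ F', P F' ∧ F ⊆ F' := by
    intro F hF hFf
    obtain ⟨F', h1, h2, h3, h4⟩ := hcon F hF hFf
    exact ⟨F', ⟨h1, h2, h4⟩, h3⟩
  have hstep : ∀ (n : ℕ) (F : Set V), P F → ∃ F', P F' ∧ F ∪ {e n} ⊆ F' := by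
    intro n F hF
    exact hnice _ (union_subset hF.1 (singleton_subset_iff.2 (heB n)))
      (hF.2.1.union (finite_singleton _))
  obtain ⟨F₀, hF₀, _⟩ := hnice ∅ (empty_subset _) finite_empty
  choose N hN1 hN2 using hstep
  let seq : ℕ → {F // P F} := fun n => Nat.rec ⟨F₀, hF₀⟩ (fun n q => ⟨N n q.1 q.2, hN1 n q.1 q.2⟩) n
  let F : ℕ → Set V := fun n => (seq n).1
  have hP : ∀ n, P (F n) := fun n => (seq n).2
  have hF1 : ∀ n, F n ∪ {e n} ⊆ F (n + 1) := fun n => hN2 n _ _
  have hFm : ∀ m n, m ≤ n → F m ⊆ F n := by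
    intro m n hmn
    induction hmn with
    | refl => exact le_refl _
    | step _ ih => exact ih.trans (subset_union_left.trans (hF1 _))
  have hcov : ∀ x ∈ B, ∃ n, x ∈ F n := by
    intro x hx
    rw [he] at hx
    obtain ⟨n, rfl⟩ := hx
    exact ⟨n + 1, hF1 n (Or.inr rfl)⟩
  let a : V → ℕ := fun x => if h : ∃ n, x ∈ F n then Nat.find h else 0
  have ha1 : ∀ x ∈ B, x ∈ F (a x) := by
    intro x hx
    simp only [a, dif_pos (hcov x hx)]
    exact Nat.find_spec (hcov x hx)
  have ha2 : ∀ x n, x ∈ F n → a x ≤ n := by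
    intro x n hn
    have h : ∃ n, x ∈ F n := ⟨n, hn⟩
    simp only [a, dif_pos h]
    exact Nat.find_min' h hn
  refine freeOver_of_stages a fun i => ?_
  rcases i with _ | i
  · refine (hfin (F 0) (hP 0).1 (hP 0).2.1).subset ?_ ?_
    · rintro x (hx | ⟨_, hx⟩)
      · exact hx
      · exact absurd hx (Nat.not_lt_zero _)
    · rintro x ⟨hx, hx0⟩
      rw [← hx0]
      exact ha1 x hx
  · refine ((hP i).2.2 (F (i + 1) \ F i) ?_ ?_).subset ?_ ?_
    · rintro x ⟨hx, hx2⟩
      exact ⟨(hP (i + 1)).1 hx, hx2⟩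
    · exact (hP (i + 1)).2.1.subset diff_subset
    · rintro x (hx | ⟨hxB, hx⟩)
      · exact Or.inl hx
      · exact Or.inr (hFm _ _ (Nat.lt_succ_iff.1 hx) (ha1 x hxB))
    · rintro x ⟨hx, hx2⟩
      refine ⟨hx2 ▸ ha1 x hx, fun h => ?_⟩
      have := ha2 x i h
      omega

theorem exact_countable {G : SimpleGraph V} {k : ℕ} {T B : Set V} (hTB : Disjoint T B)
    (hBc : B.Countable) (hfin : ∀ X ⊆ B, X.Finite → FreeOver G k T X)
    (hnf : ¬ FreeOver G k T B) : Exact G k T B := by
  classical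
  obtain ⟨F₀, hF₀B, hF₀f, hbad⟩ := exists_bad_base hBc hfin hnf
  let P : Set V → Prop := fun F => F ⊆ B ∧ F.Finite ∧ F₀ ⊆ F
  have hstep : ∀ F : Set V, P F → ∃ W, W ⊆ B \ F ∧ W.Finite ∧ ¬ FreeOver G k (T ∪ F) W ∧
      (∀ Y ⊆ W, Y ≠ W → FreeOver G k (T ∪ F) Y) ∧
      ∃ H ≤ G, FreeOver H (k + 1) (T ∪ F) W ∧ ¬ FreeOver H k (T ∪ F) W := by
    intro F hF
    obtain ⟨W, hW1, hW2, hW3⟩ := hbad F hF.1 hF.2.1 hF.2.2
    obtain ⟨W', h1, h2, h3⟩ := exists_minimal_nonfree hW2 hW3
    refine ⟨W', h1.trans hW1, hW2.subset h1, h2, h3, ?_⟩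
    refine exact_minimal ?_ h2 h3
    rw [Set.disjoint_left]
    rintro x (hx | hx) hx2
    · exact Set.disjoint_left.1 hTB hx (hW1 (h1 hx2)).1
    · exact (hW1 (h1 hx2)).2 hx
  choose W hW1 hW2 hW3 hW4 H hH1 hH2 hH3 using hstep
  let seq : ℕ → {F // P F} := fun n => Nat.rec ⟨F₀, hF₀B, hF₀f, le_refl _⟩
    (fun _ q => ⟨q.1 ∪ W q.1 q.2, union_subset q.2.1 ((hW1 q.1 q.2).trans diff_subset),
      q.2.2.1.union (hW2 q.1 q.2), q.2.2.2.trans subset_union_left⟩) n
  let F : ℕ → Set V := fun n => (seq n).1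
  let Wn : ℕ → Set V := fun n => W (seq n).1 (seq n).2
  let Hn : ℕ → SimpleGraph V := fun n => H (seq n).1 (seq n).2
  have hF0 : F 0 = F₀ := rfl
  have hFs : ∀ n, F (n + 1) = F n ∪ Wn n := fun n => rfl
  have hFB : ∀ n, F n ⊆ B := fun n => (seq n).2.1
  have hWB : ∀ n, Wn n ⊆ B \ F n := fun n => hW1 _ _
  have hW3' : ∀ n, ¬ FreeOver G k (T ∪ F n) (Wn n) := fun n => hW3 _ _
  have hW4' : ∀ n, ∀ Y ⊆ Wn n, Y ≠ Wn n → FreeOver G k (T ∪ F n) Y := fun n => hW4 _ _
  have hH1' : ∀ n, Hn n ≤ G := fun n => hH1 _ _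
  have hH2' : ∀ n, FreeOver (Hn n) (k + 1) (T ∪ F n) (Wn n) := fun n => hH2 _ _
  have hH3' : ∀ n, ¬ FreeOver (Hn n) k (T ∪ F n) (Wn n) := fun n => hH3 _ _
  have hFm : ∀ m n, m ≤ n → F m ⊆ F n := by
    intro m n hmn
    induction hmn with
    | refl => exact le_refl _
    | step _ ih => exact ih.trans (by rw [hFs]; exact subset_union_left)
  let B' : Set V := {x | ∃ n, x ∈ F n}
  have hB'B : B' ⊆ B := by
    rintro x ⟨n, hn⟩
    exact hFB n hn
  have hTB' : Disjoint T B' := hTB.mono_right hB'B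
  refine Exact.superset hTB hB'B ?_
  let a : V → ℕ := fun x => if h : ∃ n, x ∈ F n then Nat.find h else 0
  have ha1 : ∀ x ∈ B', x ∈ F (a x) := by
    intro x hx
    have hx' : ∃ n, x ∈ F n := hx
    simp only [a, dif_pos hx']
    exact Nat.find_spec hx'
  have ha2 : ∀ x n, x ∈ F n → a x ≤ n := by
    intro x n hn
    have h : ∃ n, x ∈ F n := ⟨n, hn⟩
    simp only [a, dif_pos h]
    exact Nat.find_min' h hn
  have hlt : ∀ n, {x | x ∈ B' ∧ a x < n + 1} = F n := by
    intro n
    ext x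
    constructor
    · rintro ⟨hx, hxn⟩
      exact hFm _ _ (Nat.lt_succ_iff.1 hxn) (ha1 x hx)
    · intro hx
      exact ⟨⟨n, hx⟩, Nat.lt_succ_iff.2 (ha2 x n hx)⟩
  have heq : ∀ n, {x | x ∈ B' ∧ a x = n + 1} = Wn n := by
    intro n
    ext x
    constructor
    · rintro ⟨hx, hxn⟩
      have h1 := ha1 x hx
      rw [hxn, hFs] at h1
      rcases h1 with h1 | h1
      · have := ha2 x n h1
        omega
      · exact h1
    · intro hx
      have h1 : x ∈ F (n + 1) := by rw [hFs]; exact Or.inr hx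
      refine ⟨⟨n + 1, h1⟩, le_antisymm (ha2 x _ h1) ?_⟩
      by_contra h2
      rw [not_le] at h2
      exact (hWB n hx).2 (hFm _ _ (Nat.lt_succ_iff.1 h2) (ha1 x ⟨n + 1, h1⟩))
  let Hs : ℕ → SimpleGraph V := fun n => Nat.casesOn n ⊥ (fun n => Hn n)
  refine ⟨glue T B' a Hs, glue_le (fun n => ?_), glue_freeOver hTB' (fun n => ?_), ?_⟩
  · rcases n with _ | n
    · exact bot_le
    · exact hH1' n
  · rcases n with _ | n
    · exact freeOver_bot _ _ _
    · rw [hlt, heq]
      exact hH2' n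
  · rintro ⟨r, hr⟩
    let R : V → V → Prop := fun x y => x ∈ B' ∧ y ∈ B' ∧ (glue T B' a Hs).Adj x y ∧ r y x
    have hRfin : ∀ x, {y | R x y}.Finite := by
      intro x
      by_cases hx : x ∈ B'
      · refine Set.Finite.subset (encard_lt_top_iff.1
          (lt_of_le_of_lt (hr.2.2 x hx) (ENat.natCast_lt_top k))) ?_
        rintro y ⟨_, h1, h2, h3⟩
        exact ⟨h2, Or.inr ⟨h1, h3⟩⟩
      · refine Set.Finite.subset finite_empty ?_
        rintro y ⟨h1, _⟩
        exact absurd h1 hx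
    let S : Set V := ⋃ x ∈ F₀, {y | Relation.ReflTransGen R x y}
    have hSfin : S.Finite := hF₀f.biUnion fun x _ =>
      finite_closure hr.1 (fun x y h => h.2.2.2) hRfin x
    have hF₀B' : F₀ ⊆ B' := fun x hx => ⟨0, hx⟩
    have hSB' : S ⊆ B' := by
      intro y hy
      simp only [S, mem_iUnion] at hy
      obtain ⟨x, hx, hxy⟩ := hy
      change Relation.ReflTransGen R x y at hxy
      induction hxy with
      | refl => exact hF₀B' hx
      | tail _ h2 _ => exact h2.2.1
    have hScl : ∀ x ∈ S, ∀ y ∈ B', (glue T B' a Hs).Adj x y → r y x → y ∈ S := by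
      intro x hx y hy hxy hyx
      have hxB := hSB' hx
      simp only [S, mem_iUnion] at hx ⊢
      obtain ⟨z, hz, hzx⟩ := hx
      exact ⟨z, hz, Relation.ReflTransGen.tail hzx ⟨hxB, hy, hxy, hyx⟩⟩
    have hF₀S : F₀ ⊆ S := by
      intro x hx
      simp only [S, mem_iUnion]
      exact ⟨x, hx, Relation.ReflTransGen.refl⟩
    have hex : ∃ j, ¬ Wn j ⊆ S := by
      obtain ⟨n, hn⟩ := (hSfin.image a).bddAbove
      refine ⟨n, fun hsub => ?_⟩
      have hne : (Wn n).Nonempty := by
        by_contra hemp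
        rw [not_nonempty_iff_eq_empty] at hemp
        have := hW3' n
        rw [hemp] at this
        exact this (freeOver_empty _ _ _)
      obtain ⟨w, hw⟩ := hne
      have h1 : a w ≤ n := hn ⟨w, hsub hw, rfl⟩
      have h2 : w ∈ {x | x ∈ B' ∧ a x = n + 1} := by rw [heq]; exact hw
      have := h2.2
      omega
    let j := Nat.find hex
    have hj : ¬ Wn j ⊆ S := Nat.find_spec hex
    have hjmin : ∀ i < j, Wn i ⊆ S := fun i hi => by
      by_contra h
      exact Nat.find_min hex hi h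
    have hFjS : ∀ i ≤ j, F i ⊆ S := by
      intro i
      induction i with
      | zero => intro _; exact hF₀S
      | succ i ih =>
        intro hi
        rw [hFs]
        exact union_subset (ih (by omega)) (hjmin i (by omega))
    apply hH3' j
    refine freeOver_of_two (S := Wn j ∩ S) inter_subset_left ?_ ?_
    · refine (hW4' j _ inter_subset_left ?_).anti (hH1' j)
      intro h
      exact hj (inter_eq_left.1 h)
    · have hd : FreeOver (glue T B' a Hs) k (T ∪ S) (B' \ S) := ⟨r, hr.diff hSB' hScl⟩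
      have hWB' : Wn j ⊆ B' := by
        rw [← heq]
        exact fun x hx => hx.1
      refine (hd.subset (T' := T ∪ F j ∪ (Wn j ∩ S)) (B' := Wn j \ (Wn j ∩ S)) ?_ ?_).congr ?_
      · refine union_subset (union_subset_union_right _ (hFjS j (le_refl _))) ?_
        exact inter_subset_right.trans subset_union_right
      · rintro x ⟨hx, hx2⟩
        exact ⟨hWB' hx, fun h => hx2 ⟨hx, h⟩⟩
      · rintro x ⟨hx, hx2⟩ y hy hxy
        have hx3 : x ∈ {x | x ∈ B' ∧ a x = j + 1} := by rw [heq]; exact hx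
        have hax : a x = j + 1 := hx3.2
        rw [glue_adj hTB' hx3.1]
        · rw [hax]
          exact hxy
        · have hWy : ∀ y ∈ Wn j, y ∈ T ∨ (y ∈ B' ∧ a y ≤ a x) := by
            intro y hy
            have hy3 : y ∈ {x | x ∈ B' ∧ a x = j + 1} := by rw [heq]; exact hy
            exact Or.inr ⟨hy3.1, by rw [hax]; exact hy3.2.le⟩
          rcases hy with ((hy | hy) | hy) | hy
          · exact Or.inl hy
          · have hy3 : y ∈ {x | x ∈ B' ∧ a x < j + 1} := by rw [hlt]; exact hy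
            exact Or.inr ⟨hy3.1, by rw [hax]; exact hy3.2.le⟩
          · exact hWy y hy.1
          · exact hWy y hy.1

/-- Main theorem in relative form. -/
theorem exact_of_not_free (G : SimpleGraph V) (k : ℕ) :
    ∀ (c : Cardinal.{u}) (T B : Set V), Disjoint T B → #B = c → ¬ FreeOver G k T B →
      Exact G k T B := by
  intro c
  induction c using Cardinal.lt_wf.induction with
  | _ c ih =>
    intro T B hTB hBc hnf
    by_cases h : ∃ B' ⊆ B, #B' < #B ∧ ¬ FreeOver G k T B'
    · obtain ⟨B', hB', hlt, hnf'⟩ := h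
      exact Exact.superset hTB hB'
        (ih #B' (by rw [← hBc]; exact hlt) T B' (hTB.mono_right hB') rfl hnf')
    · push Not at h
      rcases lt_trichotomy (#B) ℵ₀ with h1 | h1 | h1
      · have hfin : B.Finite := lt_aleph0_iff_set_finite.1 h1
        refine exact_minimal hTB hnf fun Y hY hne => h Y hY ?_
        have hYf := hfin.subset hY
        rw [← cast_ncard hYf, ← cast_ncard hfin]
        exact_mod_cast ncard_lt_ncard (hY.ssubset_of_ne hne) hfin
      · refine exact_countable hTB (le_aleph0_iff_set_countable.1 h1.le) (fun X hX hXf => ?_) hnf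
        refine h X hX ?_
        rw [h1]
        exact lt_aleph0_iff_set_finite.2 hXf
      · rcases isRegular_or_isSingular h1.le with hreg | hsing
        · refine exact_regular hreg h1 hTB rfl hnf fun T' B' hd hlt hnf' => ?_
          exact ih #B' (by rw [← hBc]; exact hlt) T' B' hd rfl hnf'
        · exact absurd (freeOver_singular hsing rfl h) hnf

end Pool.Agent.helper461_col
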