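import Pool.Agent.helper461_col.Club

/-!
# The regular uncountable case (helper461)
-/

open Cardinal Set

universe u

namespace Pool.Agent.helper461_col

variable {V : Type u}

lemma freeOver_bot (k : ℕ) (T B : Set V) : FreeOver (⊥ : SimpleGraph V) k T B := by
  refine ⟨fun _ _ => False, wf_false, ?_, ?_⟩
  · intro x _ y _ h
    exact absurd h (by simp)
  · intro x _
    have : {y | (⊥ : SimpleGraph V).Adj x y ∧ (y ∈ T ∨ (y ∈ B ∧ False))} = ∅ := by
      ext y; simp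
    rw [this]
    simp

/-- Concatenation along closure points: if at every closure point all small sets are free, then the
whole set is free. -/
lemma freeOver_of_closPts {κ : Cardinal.{u}} {G H : SimpleGraph V}
    {k : ℕ} {T B : Set V} {r : V → V → Prop} (a : V → κ.ord.ToType)
    (hsmall : ∀ i, #{x | x ∈ B ∧ a x < i} < κ)
    (hunb : ∀ x ∈ B, ∃ c, a x < c ∧ ClosPt H B a r c)
    (hfree : ∀ c, ClosPt H B a r c → ∀ X ⊆ B \ {x | x ∈ B ∧ a x < c}, #X < κ →
      FreeOver G k (T ∪ {x | x ∈ B ∧ a x < c}) X) :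
    FreeOver G k T B := by
  classical
  rcases B.eq_empty_or_nonempty with rfl | ⟨x₁, hx₁⟩
  · exact freeOver_empty _ _ _
  have hne : Nonempty κ.ord.ToType := ⟨a x₁⟩
  let C : Set κ.ord.ToType := {c | ClosPt H B a r c}
  let b : V → κ.ord.ToType := fun x => if h : ({c | a x < c ∧ c ∈ C} : Set κ.ord.ToType).Nonempty
    then wellFounded_lt.min _ h else Classical.arbitrary _
  have hb1 : ∀ x ∈ B, a x < b x ∧ b x ∈ C := by
    intro x hx
    have h : ({c | a x < c ∧ c ∈ C} : Set κ.ord.ToType).Nonempty := hunb x hx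
    simp only [b, dif_pos h]
    exact wellFounded_lt.min_mem _ h
  have hb2 : ∀ x c, a x < c → c ∈ C → b x ≤ c := by
    intro x c h1 h2
    have h : ({c | a x < c ∧ c ∈ C} : Set κ.ord.ToType).Nonempty := ⟨c, h1, h2⟩
    simp only [b, dif_pos h]
    exact not_lt.1 (wellFounded_lt.not_lt_min {c | a x < c ∧ c ∈ C} ⟨h1, h2⟩)
  refine freeOver_of_stages b fun c => ?_
  rcases ({x | x ∈ B ∧ b x = c} : Set V).eq_empty_or_nonempty with h0 | ⟨x₀, hx₀, hx₀c⟩
  · rw [h0]
    exact freeOver_empty _ _ _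
  have hcC : c ∈ C := hx₀c ▸ (hb1 x₀ hx₀).2
  let U : Set κ.ord.ToType := {q | ∀ c' ∈ C, c' < c → c' ≤ q}
  have hU : U.Nonempty := ⟨c, fun c' _ h => h.le⟩
  let p := wellFounded_lt.min U hU
  have hp1 : ∀ c' ∈ C, c' < c → c' ≤ p := wellFounded_lt.min_mem U hU
  have hp2 : ∀ i, i < p → ∃ c' ∈ C, c' < c ∧ i < c' := by
    intro i hi
    by_contra hcon
    push Not at hcon
    exact wellFounded_lt.not_lt_min U (show i ∈ U from hcon) hi
  have hZ : {x | x ∈ B ∧ b x < c} = {x | x ∈ B ∧ a x < p} := by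
    ext x
    constructor
    · rintro ⟨hx, hxc⟩
      exact ⟨hx, lt_of_lt_of_le (hb1 x hx).1 (hp1 _ (hb1 x hx).2 hxc)⟩
    · rintro ⟨hx, hxp⟩
      obtain ⟨c', hc', h1, h2⟩ := hp2 _ hxp
      exact ⟨hx, lt_of_le_of_lt (hb2 x c' h2 hc') h1⟩
  have hpC : ClosPt H B a r p := by
    intro x hx hxp y hy hxy hyx
    obtain ⟨c', hc', h1, h2⟩ := hp2 _ hxp
    exact lt_of_lt_of_le (hc' x hx h2 y hy hxy hyx) (hp1 c' hc' h1)
  rw [hZ]
  refine hfree p hpC _ ?_ ?_
  · rintro x ⟨hx, hxc⟩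
    refine ⟨hx, fun h => ?_⟩
    rw [← hZ] at h
    exact absurd h.2 (by rw [hxc]; exact lt_irrefl _)
  · refine lt_of_le_of_lt (mk_le_mk_of_subset ?_) (hsmall c)
    rintro x ⟨hx, hxc⟩
    exact ⟨hx, hxc ▸ (hb1 x hx).1⟩

theorem exact_regular {κ : Cardinal.{u}} (hκ : κ.IsRegular) (hκ0 : ℵ₀ < κ) {G : SimpleGraph V}
    {k : ℕ} {T B : Set V} (hTB : Disjoint T B) (hB : #B = κ)
    (hnf : ¬ FreeOver G k T B)
    (IH : ∀ T' B' : Set V, Disjoint T' B' → #B' < κ → ¬ FreeOver G k T' B' → Exact G k T' B') :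
    Exact G k T B := by
  classical
  have hκne : κ.ord.ToType ≃ B := by
    have : #(κ.ord.ToType) = #B := by rw [mk_ord_toType, hB]
    exact Classical.choice (Cardinal.eq.1 this)
  have hne : Nonempty κ.ord.ToType := by
    rw [← mk_ne_zero_iff, mk_ord_toType]
    exact hκ.ne_zero
  -- the step function
  let X : Set V → Set V := fun S =>
    if h : ∃ X ⊆ B \ S, #X < κ ∧ ¬ FreeOver G k (T ∪ S) X then h.choose else ∅
  have hX1 : ∀ S, X S ⊆ B \ S := by
    intro S
    by_cases h : ∃ X ⊆ B \ S, #X < κ ∧ ¬ FreeOver G k (T ∪ S) X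
    · simp only [X, dif_pos h]
      exact h.choose_spec.1
    · simp only [X, dif_neg h]
      exact empty_subset _
  have hX2 : ∀ S, #↥(X S) < κ := by
    intro S
    by_cases h : ∃ X ⊆ B \ S, #X < κ ∧ ¬ FreeOver G k (T ∪ S) X
    · simp only [X, dif_pos h]
      exact h.choose_spec.2.1
    · simp only [X, dif_neg h]
      simpa using hκ.pos
  have hX3 : ∀ S, (∃ X ⊆ B \ S, #X < κ ∧ ¬ FreeOver G k (T ∪ S) X) →
      ¬ FreeOver G k (T ∪ S) (X S) := by
    intro S h
    simp only [X, dif_pos h]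
    exact h.choose_spec.2.2
  let N : κ.ord.ToType → Set V → Set V := fun i S => (S ∪ {(hκne i : V)}) ∪ X S
  obtain ⟨a, ha1, ha2⟩ := chain_stage (N := N) (B := B)
    (fun i x hx => Or.inl (Or.inl hx))
    (fun i hS => by
      rintro x ((hx | hx) | hx)
      · exact hS hx
      · rw [mem_singleton_iff] at hx
        rw [hx]
        exact (hκne i).2
      · exact (hX1 _ hx).1)
    (fun x hx => ⟨hκne.symm ⟨x, hx⟩, Or.inl (Or.inr (by simp))⟩)
  have hcard : ∀ i, #↥(chain N i) < κ := by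
    intro i
    induction i using WellFoundedLT.induction with
    | _ i ih =>
      rw [chain_eq]
      have h1 : #(Iio i) < κ := mk_Iio_toType_ord_lt i
      have h2 := (card_biUnion_lt_iff_forall_of_isRegular (s := Iio i)
        (t := fun j _ => N j (chain N j)) hκ h1).2 (fun j hj => by
          refine lt_of_le_of_lt (mk_union_le _ _) (add_lt_of_lt hκ.aleph0_le ?_ (hX2 _))
          refine lt_of_le_of_lt (mk_union_le _ _) (add_lt_of_lt hκ.aleph0_le (ih j hj) ?_)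
          rw [mk_singleton]
          exact one_lt_aleph0.trans hκ0)
      exact h2
  have hcard2 : ∀ i, #{x | x ∈ B ∧ a x ≤ i} < κ := by
    intro i
    rw [← ha2]
    refine lt_of_le_of_lt (mk_union_le _ _) (add_lt_of_lt hκ.aleph0_le ?_ (hX2 _))
    refine lt_of_le_of_lt (mk_union_le _ _) (add_lt_of_lt hκ.aleph0_le (hcard i) ?_)
    rw [mk_singleton]
    exact one_lt_aleph0.trans hκ0
  have hcard1 : ∀ i, #{x | x ∈ B ∧ a x < i} < κ := by
    intro i
    rw [← ha1]
    exact hcard i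
  -- the pieces
  have hpiece : ∀ i, ∃ H ≤ G,
      FreeOver H (k + 1) (T ∪ {x | x ∈ B ∧ a x < i}) {x | x ∈ B ∧ a x = i} ∧
      (FreeOver H k (T ∪ {x | x ∈ B ∧ a x < i}) {x | x ∈ B ∧ a x = i} →
        ∀ X ⊆ B \ {x | x ∈ B ∧ a x < i}, #X < κ → FreeOver G k (T ∪ {x | x ∈ B ∧ a x < i}) X) := by
    intro i
    by_cases h : ∃ X ⊆ B \ {x | x ∈ B ∧ a x < i}, #X < κ ∧
        ¬ FreeOver G k (T ∪ {x | x ∈ B ∧ a x < i}) X
    · have h3 := hX3 _ h
      have hsub : X {x | x ∈ B ∧ a x < i} ⊆ {x | x ∈ B ∧ a x = i} := by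
        intro x hx
        have hx1 := hX1 _ hx
        have hx2 : x ∈ N i (chain N i) := by
          rw [ha1]
          exact Or.inr hx
        rw [ha2] at hx2
        refine ⟨hx1.1, le_antisymm hx2.2 (not_lt.1 fun hlt => hx1.2 ⟨hx1.1, hlt⟩)⟩
      obtain ⟨H, hH, h4, h5⟩ := IH (T ∪ {x | x ∈ B ∧ a x < i}) {x | x ∈ B ∧ a x = i}
        (by
          rw [Set.disjoint_left]
          rintro x (hx | hx) ⟨hx2, hx3⟩
          · exact Set.disjoint_left.1 hTB hx hx2
          · exact absurd hx.2 (by rw [hx3]; exact lt_irrefl _))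
        (lt_of_le_of_lt (mk_le_mk_of_subset (show {x | x ∈ B ∧ a x = i} ⊆ {x | x ∈ B ∧ a x ≤ i}
          from fun x hx => ⟨hx.1, hx.2.le⟩)) (hcard2 i))
        (fun hf => h3 (hf.subset (le_refl _) hsub))
      exact ⟨H, hH, h4, fun hf => absurd hf h5⟩
    · push Not at h
      exact ⟨⊥, bot_le, freeOver_bot _ _ _, fun _ => h⟩
  choose Hs hHs1 hHs2 hHs3 using hpiece
  refine ⟨glue T B a Hs, glue_le hHs1, glue_freeOver hTB hHs2, ?_⟩
  rintro ⟨r, hr⟩
  apply hnf
  refine freeOver_of_closPts (H := glue T B a Hs) (r := r) a hcard1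
    (fun x hx => exists_closPt hκ hκ0 hr a hcard2 hx) ?_
  intro c hc
  apply hHs3 c
  rw [← glue_freeOver_iff hTB c]
  refine (hr.of_closPt hc).subset (le_refl _) ?_
  rintro x ⟨hx, hx2⟩
  exact ⟨hx, hx2.ge⟩

end Pool.Agent.helper461_col
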