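import Pool.Agent.helper461_col.Regular

/-!
# The singular case: singular compactness for finite coloring numbers (helper461)
-/

open Cardinal Set

universe u

namespace Pool.Agent.helper461_col

variable {V : Type u}

lemma card_iUnion_le' {ι : Type u} {t : ι → Set V} {μ : Cardinal.{u}} (hμ : ℵ₀ ≤ μ)
    (hι : #ι ≤ μ) (h : ∀ i, #(t i) ≤ μ) : #(⋃ i, t i : Set V) ≤ μ := by
  refine (mk_iUnion_le t).trans ?_
  calc #ι * ⨆ i, #(t i) ≤ μ * μ := mul_le_mul' hι (ciSup_le' h)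
    _ = μ := mul_eq_self hμ

lemma card_biUnion_le' {α : Type u} {s : Set α} {t : α → Set V} {μ : Cardinal.{u}} (hμ : ℵ₀ ≤ μ)
    (hs : #s ≤ μ) (h : ∀ i ∈ s, #(t i) ≤ μ) : #(⋃ i ∈ s, t i : Set V) ≤ μ := by
  rw [biUnion_eq_iUnion]
  exact card_iUnion_le' hμ hs fun i => h i i.2

lemma card_biUnion_le'' {ι : Type u} {s : Set ι} {t : ι → Set V} {μ : Cardinal.{u}} (hμ : ℵ₀ ≤ μ)
    (hι : #ι ≤ μ) (h : ∀ i ∈ s, #(t i) ≤ μ) : #(⋃ i ∈ s, t i : Set V) ≤ μ :=
  card_biUnion_le' hμ ((mk_set_le s).trans hι) h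

lemma card_union_le' {s t : Set V} {μ : Cardinal.{u}} (hμ : ℵ₀ ≤ μ)
    (hs : #s ≤ μ) (ht : #t ≤ μ) : #(s ∪ t : Set V) ≤ μ :=
  (mk_union_le s t).trans ((add_le_add hs ht).trans (add_eq_self hμ).le)

/-- Nice supersets: if all sets of size at most `μ⁺` are free, then every set of size at most `μ`
has a superset of size at most `μ` over which all sets of size at most `μ` are free. -/
theorem exists_nice {μ : Cardinal.{u}} (hμ : ℵ₀ ≤ μ) {G : SimpleGraph V} {k : ℕ} {T B : Set V}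
    (hsm : ∀ X ⊆ B, #X ≤ Order.succ μ → FreeOver G k T X) {A : Set V} (hA : A ⊆ B)
    (hAμ : #A ≤ μ) :
    ∃ A' ⊆ B, A ⊆ A' ∧ #A' ≤ μ ∧ ∀ X ⊆ B \ A', #X ≤ μ → FreeOver G k (T ∪ A') X := by
  classical
  by_contra hcon
  push Not at hcon
  have hreg : (Order.succ μ).IsRegular := isRegular_succ hμ
  have hμlt : μ < Order.succ μ := Order.lt_succ μ
  have hℵ : ℵ₀ < Order.succ μ := lt_of_le_of_lt hμ hμlt
  have hne : Nonempty (Order.succ μ).ord.ToType := by
    rw [← mk_ne_zero_iff, mk_ord_toType]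
    exact hreg.ne_zero
  let X : Set V → Set V := fun S =>
    if h : ∃ X ⊆ B \ S, #X ≤ μ ∧ ¬ FreeOver G k (T ∪ S) X then h.choose else ∅
  have hX1 : ∀ S, X S ⊆ B \ S := by
    intro S
    by_cases h : ∃ X ⊆ B \ S, #X ≤ μ ∧ ¬ FreeOver G k (T ∪ S) X
    · simp only [X, dif_pos h]
      exact h.choose_spec.1
    · simp only [X, dif_neg h]
      exact empty_subset _
  have hX2 : ∀ S, #↥(X S) ≤ μ := by
    intro S
    by_cases h : ∃ X ⊆ B \ S, #X ≤ μ ∧ ¬ FreeOver G k (T ∪ S) X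
    · simp only [X, dif_pos h]
      exact h.choose_spec.2.1
    · simp only [X, dif_neg h]
      simp
  have hX3 : ∀ S, S ⊆ B → A ⊆ S → #S ≤ μ → ¬ FreeOver G k (T ∪ S) (X S) := by
    intro S h1 h2 h3
    have h : ∃ X ⊆ B \ S, #X ≤ μ ∧ ¬ FreeOver G k (T ∪ S) X := hcon S h1 h2 h3
    simp only [X, dif_pos h]
    exact h.choose_spec.2.2
  let N : (Order.succ μ).ord.ToType → Set V → Set V := fun _ S => (S ∪ A) ∪ X (S ∪ A)
  let B' : Set V := {x | ∃ i, x ∈ N i (chain N i)}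
  obtain ⟨a, ha1, ha2⟩ := chain_stage (N := N) (B := B')
    (fun i x hx => Or.inl (Or.inl hx)) (fun i _ x hx => ⟨i, hx⟩) (fun x hx => hx)
  have hchB : ∀ i, chain N i ⊆ B := by
    intro i
    induction i using WellFoundedLT.induction with
    | _ i ih =>
      intro x hx
      obtain ⟨j, hj, hxj⟩ := mem_chain.1 hx
      rcases hxj with (h | h) | h
      · exact ih j hj h
      · exact hA h
      · exact (hX1 _ h).1
  have hB'B : B' ⊆ B := by
    rintro x ⟨i, (h | h) | h⟩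
    · exact hchB i h
    · exact hA h
    · exact (hX1 _ h).1
  have hcard : ∀ i, #↥(chain N i) ≤ μ := by
    intro i
    induction i using WellFoundedLT.induction with
    | _ i ih =>
      rw [chain_eq]
      refine card_biUnion_le' (s := Iio i) (t := fun j => N j (chain N j)) hμ ?_ ?_
      · exact Order.lt_succ_iff.1 (mk_Iio_toType_ord_lt i)
      · intro j hj
        exact card_union_le' hμ (card_union_le' hμ (ih j hj) hAμ) (hX2 _)
  have hcardN : ∀ i, #↥(N i (chain N i)) ≤ μ := fun i =>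
    card_union_le' hμ (card_union_le' hμ (hcard i) hAμ) (hX2 _)
  have hB' : #B' ≤ Order.succ μ := by
    have : B' = ⋃ i, N i (chain N i) := by
      ext x; simp [B']
    rw [this]
    refine card_iUnion_le' (hμ.trans hμlt.le) ?_ fun i => (hcardN i).trans hμlt.le
    rw [mk_ord_toType]
  obtain ⟨r, hr⟩ := hsm B' hB'B hB'
  -- a vertex of `B'`
  have hi₀ : A ⊆ ∅ ∪ A := subset_union_right
  obtain ⟨x₀, hx₀⟩ : B'.Nonempty := by
    by_contra hemp
    rw [not_nonempty_iff_eq_empty] at hemp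
    obtain ⟨X', hX', _, hX'nf⟩ := hcon A hA (le_refl _) hAμ
    have i₀ : (Order.succ μ).ord.ToType := Classical.choice hne
    have h1 : N i₀ (chain N i₀) ⊆ B' := fun x hx => ⟨i₀, hx⟩
    rw [hemp, subset_empty_iff] at h1
    have h2 : X (chain N i₀ ∪ A) = ∅ := by
      have : X (chain N i₀ ∪ A) ⊆ N i₀ (chain N i₀) := subset_union_right
      rw [h1] at this
      exact subset_empty_iff.1 this
    have h3 := hX3 (chain N i₀ ∪ A) (union_subset (hchB i₀) hA) subset_union_right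
      (card_union_le' hμ (hcard i₀) hAμ)
    rw [h2] at h3
    exact h3 (freeOver_empty _ _ _)
  obtain ⟨c, hc1, hc2⟩ := exists_closPt hreg hℵ hr a (fun i => by
    rw [← ha2]
    exact lt_of_le_of_lt (hcardN i) hμlt) hx₀
  have hAc : A ⊆ chain N c := by
    intro x hx
    exact mem_chain.2 ⟨a x₀, hc1, Or.inl (Or.inr hx)⟩
  have hunion : chain N c ∪ A = chain N c := union_eq_self_of_subset_right hAc
  apply hX3 (chain N c) (hchB c) hAc (hcard c)
  have h := hr.of_closPt hc2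
  rw [← ha1] at h
  refine h.subset (le_refl _) ?_
  intro x hx
  have hx1 : x ∈ B' := ⟨c, by
    change x ∈ (chain N c ∪ A) ∪ X (chain N c ∪ A)
    rw [hunion]
    exact Or.inr hx⟩
  refine ⟨hx1, not_lt.1 fun hlt => (hX1 _ hx).2 ?_⟩
  rw [ha1]
  exact ⟨hx1, hlt⟩

/-- End-extension of a relation on `A` by a relation outside `A`. -/
def ext (A : Set V) (r s : V → V → Prop) : V → V → Prop := fun x y =>
  (x ∈ A ∧ y ∈ A ∧ r x y) ∨ (x ∈ A ∧ y ∉ A) ∨ (x ∉ A ∧ y ∉ A ∧ s x y)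

lemma ext_mem {A : Set V} {r s : V → V → Prop} {x y : V} (hy : y ∈ A) :
    ext A r s x y ↔ x ∈ A ∧ r x y := by
  unfold ext
  constructor
  · rintro (h | h | h)
    · exact ⟨h.1, h.2.2⟩
    · exact absurd hy h.2
    · exact absurd hy h.2.1
  · rintro ⟨h1, h2⟩
    exact Or.inl ⟨h1, hy, h2⟩

lemma ext_wf {A : Set V} {r s : V → V → Prop} (hr : WellFounded r) (hs : WellFounded s) :
    WellFounded (ext A r s) := by
  have h1 : ∀ y, y ∈ A → Acc (ext A r s) y := by
    intro y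
    induction y using hr.induction with
    | _ y ih =>
      intro hy
      refine Acc.intro y fun x hx => ?_
      rw [ext_mem hy] at hx
      exact ih x hx.2 hx.1
  have h2 : ∀ y, y ∉ A → Acc (ext A r s) y := by
    intro y
    induction y using hs.induction with
    | _ y ih =>
      intro hy
      refine Acc.intro y fun x hx => ?_
      rcases hx with hx | hx | hx
      · exact absurd hx.2.1 hy
      · exact h1 x hx.1
      · exact ih x hx.2.2 hx.1
  exact ⟨fun y => by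
    by_cases hy : y ∈ A
    · exact h1 y hy
    · exact h2 y hy⟩

lemma ext_witness {G : SimpleGraph V} {k : ℕ} {T A A' : Set V} {r s : V → V → Prop}
    (hr : Witness G k T A r) (hs : Witness G k (T ∪ A) (A' \ A) s) :
    Witness G k T A' (ext A r s) := by
  refine ⟨ext_wf hr.1 hs.1, ?_, ?_⟩
  · intro x hx y hy hxy
    by_cases hxA : x ∈ A <;> by_cases hyA : y ∈ A
    · rcases hr.2.1 x hxA y hyA hxy with h | h
      · exact Or.inl (Or.inl ⟨hxA, hyA, h⟩)
      · exact Or.inr (Or.inl ⟨hyA, hxA, h⟩)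
    · exact Or.inl (Or.inr (Or.inl ⟨hxA, hyA⟩))
    · exact Or.inr (Or.inr (Or.inl ⟨hyA, hxA⟩))
    · rcases hs.2.1 x ⟨hx, hxA⟩ y ⟨hy, hyA⟩ hxy with h | h
      · exact Or.inl (Or.inr (Or.inr ⟨hxA, hyA, h⟩))
      · exact Or.inr (Or.inr (Or.inr ⟨hyA, hxA, h⟩))
  · intro x hx
    by_cases hxA : x ∈ A
    · refine le_trans (encard_le_encard ?_) (hr.2.2 x hxA)
      rintro y ⟨hxy, hy⟩
      refine ⟨hxy, ?_⟩
      rcases hy with hy | hy
      · exact Or.inl hy
      · exact Or.inr ((ext_mem hxA).1 hy.2)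
    · refine le_trans (encard_le_encard ?_) (hs.2.2 x ⟨hx, hxA⟩)
      rintro y ⟨hxy, hy⟩
      refine ⟨hxy, ?_⟩
      rcases hy with hy | ⟨hy, h | h | h⟩
      · exact Or.inl (Or.inl hy)
      · exact absurd h.2.1 hxA
      · exact Or.inl (Or.inr h.1)
      · exact Or.inr ⟨⟨hy, h.1⟩, h.2.2⟩

end Pool.Agent.helper461_col
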